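import Pool.Agent.H9.HF.Str
import Pool.Agent.H9.BV.Embed

/-!
# Assembly

`hf_num`: `s = Nat.clog 2 (d+1)`, `d + 1 ≤ 2^s` (`Nat.le_pow_clog`), so `E = 32 d 4^s ≤ 2^(5+3s)`, and
`2 h^2 ≤ 2^(3h)`; so `2 h^2 E^h ≤ 2^(3h + h(5+3s)) = 2^(h(3s+8))`.
`layer_le`: the layer is a subset of the power set of `range d` (`2^d` elements).
-/

namespace Pool.Agent.H9.HF

open Finset Pool.Agent.H97.QD Pool.Agent.H9.BV

variable {V : Type}

theorem hf_num {h d : ℕ} (hd : 1 ≤ d) :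
    (2 * (h ^ 2 * (32 * d * 4 ^ Nat.clog 2 (d + 1)) ^ h)) ^ Nat.clog 2 (d + 1) * (4 * 2 ^ d) ≤
      2 ^ (d + 2 + h * (Nat.clog 2 (d + 1) * (3 * Nat.clog 2 (d + 1) + 8))) := by
  have hds : d + 1 ≤ 2 ^ Nat.clog 2 (d + 1) := Nat.le_pow_clog (by norm_num) _
  generalize Nat.clog 2 (d + 1) = s at *
  have h1 : 32 * d * 4 ^ s ≤ 2 ^ (3 * s + 5) := by
    calc 32 * d * 4 ^ s ≤ 32 * 2 ^ s * 4 ^ s :=
          Nat.mul_le_mul_right _ (Nat.mul_le_mul_left _ (by omega))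
      _ = 2 ^ (3 * s + 5) := by
        rw [show (32 : ℕ) = 2 ^ 5 by norm_num, show (4 : ℕ) = 2 ^ 2 by norm_num, ← pow_mul,
          ← pow_add, ← pow_add]
        congr 1; ring
  have h2 : 2 * h ^ 2 ≤ 2 ^ (3 * h) := by
    rcases Nat.eq_zero_or_pos h with h0 | h0
    · subst h0; norm_num
    · have h3 : h ≤ 2 ^ h := Nat.lt_two_pow_self.le
      calc 2 * h ^ 2 ≤ 2 * (2 ^ h) ^ 2 := Nat.mul_le_mul_left _ (Nat.pow_le_pow_left h3 2)
        _ = 2 ^ (2 * h + 1) := by rw [← pow_mul, pow_succ]; ring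
        _ ≤ 2 ^ (3 * h) := Nat.pow_le_pow_right (by norm_num) (by omega)
  have h3 : 2 * (h ^ 2 * (32 * d * 4 ^ s) ^ h) ≤ 2 ^ (h * (3 * s + 8)) := by
    calc 2 * (h ^ 2 * (32 * d * 4 ^ s) ^ h) = (2 * h ^ 2) * (32 * d * 4 ^ s) ^ h := by ring
      _ ≤ 2 ^ (3 * h) * (2 ^ (3 * s + 5)) ^ h := Nat.mul_le_mul h2 (Nat.pow_le_pow_left h1 h)
      _ = 2 ^ (h * (3 * s + 8)) := by
        rw [← pow_mul, ← pow_add]; congr 1; ring
  calc (2 * (h ^ 2 * (32 * d * 4 ^ s) ^ h)) ^ s * (4 * 2 ^ d) ≤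
      (2 ^ (h * (3 * s + 8))) ^ s * (4 * 2 ^ d) :=
        Nat.mul_le_mul_right _ (Nat.pow_le_pow_left h3 s)
    _ = 2 ^ (d + 2 + h * (s * (3 * s + 8))) := by
      rw [show (4 : ℕ) = 2 ^ 2 by norm_num, ← pow_mul, ← pow_add, ← pow_add]
      congr 1; ring

open Classical in
theorem layer_le (d h : ℕ) (z : Finset ℕ) :
    4 * ((range d).powerset.filter (fun x => x.card = h ∧ x ∩ range 0 = z)).card ≤ 4 * 2 ^ d := by
  apply Nat.mul_le_mul_left
  refine (Finset.card_filter_le _ _).trans ?_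
  rw [Finset.card_powerset, Finset.card_range]

theorem main [Fintype V] {T : V → V → Prop} (hT : IsTournament T) {h d : ℕ} (hd : 1 ≤ d)
    (H : Fin h → Fin h → Prop) (hH : IsTournament H)
    (hno : ¬ ∃ f : Fin h → V, Function.Injective f ∧ ∀ i j, H i j → T (f i) (f j))
    (hN : 2 ^ (d + 2 + h * (Nat.clog 2 (d + 1) * (3 * Nat.clog 2 (d + 1) + 8))) ≤
      Fintype.card V) :
    ∃ φ : Finset ℕ → V, (∀ x ⊆ range d, ∀ y ⊆ range d, φ x = φ y → x = y) ∧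
      ∀ x ⊆ range d, ∀ i ∈ range d, i ∉ x → T (φ x) (φ (insert i x)) := by
  classical
  set s := Nat.clog 2 (d + 1) with hs
  set E := 32 * d * 4 ^ s with hEdef
  have hE : 0 < E := by positivity
  have hds : d + 1 ≤ 2 ^ s := Nat.le_pow_clog (by norm_num) _
  obtain ⟨Y, hY⟩ := exists_str hT hE H hH hno s (X := (univ : Finset V)) (w := 4 * 2 ^ d)
    (by positivity) (by
      rw [Finset.card_univ]
      exact (hf_num hd).trans hN)
  have hB : Blue T d 0 (1 / (32 * d)) (fun _ => 4 * 2 ^ d) (fun i _ => Y i) := by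
    refine ⟨fun i hi z _ => hY.card i (by omega), ?_, ?_⟩
    · intro i hi j hj z hz z' hz' hne
      have e1 : z = ∅ := by simpa using hz
      have e2 : z' = ∅ := by simpa using hz'
      rcases hne with h1 | h1
      · exact hY.disj i (by omega) j (by omega) h1
      · exact absurd (e1.trans e2.symm) h1
    · intro i hi z _ z' _ _
      have h1 := hY.miss i (i + 1) (Nat.lt_succ_self i) (by omega)
      have h2 : ((32 * d * 4 ^ s : ℕ) : ℝ) * (miss T (Y i) (Y (i + 1)) : ℝ) ≤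
          4 ^ s * ((4 * 2 ^ d : ℕ) : ℝ) ^ 2 := by exact_mod_cast h1
      have hd' : (0 : ℝ) < d := by exact_mod_cast hd
      have h4 : (0 : ℝ) < 4 ^ s := by positivity
      have h3 : (32 * d : ℝ) * (miss T (Y i) (Y (i + 1)) : ℝ) ≤ ((4 * 2 ^ d : ℕ) : ℝ) ^ 2 := by
        push_cast at h2 ⊢
        have e : (4 : ℝ) ^ s * ((32 * d : ℝ) * (miss T (Y i) (Y (i + 1)) : ℝ)) ≤
            4 ^ s * ((4 * 2 ^ d) : ℝ) ^ 2 := by
          refine le_trans (le_of_eq (by ring)) h2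
        exact le_of_mul_le_mul_left e h4
      rw [show (1 / (32 * d) : ℝ) * ((4 * 2 ^ d : ℕ) : ℝ) * ((4 * 2 ^ d : ℕ) : ℝ) =
        ((4 * 2 ^ d : ℕ) : ℝ) ^ 2 / (32 * d) by ring, le_div_iff₀ (by positivity)]
      linarith
  refine embed hB hd ?_ (fun _ _ => by positivity) (fun i _ z _ => layer_le d i z)
  have hd' : (0 : ℝ) < d := by exact_mod_cast hd
  push_cast
  rw [zero_add, mul_one, mul_one_div, div_self (by positivity)]

end Pool.Agent.H9.HF
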