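import Pool.Agent.H9.BV.Basic

/-!
# JOB HF-1: the pair lemma (Erdős-Hajnal-Rödl type embedding)

Project HF (helper9), MP_f69362_co. THEOREM: every tournament with at least `2^(d + 2 + h s (3s+8))`
vertices, `s = ⌈log2 (d+1)⌉`, contains the oriented cube `Q_d` or EVERY tournament with `h` vertices.

`pair_lemma`: induction on `h` (for all `H`, `X`, `m`); `h = 0`: the empty map. Step `h + 1`: call
`x ∈ X 0` good for `j : Fin h` if `|X j.succ| ≤ E |N|` where `N` is the set of the `y ∈ X j.succ` with
`T x y` if `H 0 j.succ`, resp. with `T y x` if not (then `H j.succ 0`).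
(a) Some `x ∈ X 0` is good for all `j`. Let `X' j` be this set `N`; it has at least `m'` elements where
`m' = ⌈m / E⌉` (`m ≤ E m'`; `0 < m'`). Apply the induction hypothesis to `X'` and `H` restricted to the
successors: a map `f'` gives `Fin.cons x f'`; a pair `A, B` for `m'` is a pair for `m`:
`m ≤ E m' ≤ E h E^h |A| ≤ (h+1) E^(h+1) |A|`.
(b) Otherwise every `x ∈ X 0` is bad for some `j`; by pigeonhole some `j` is bad for a set `A ⊆ X 0` with
`|X 0| ≤ h |A|` (so `h ≥ 1`). Let `B = X j.succ`. If `H 0 j.succ`: for `x ∈ A` fewer than `|B|/E` of the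
`y ∈ B` have `T x y`, so `E miss T B A ≤ |A||B|` (`miss_eq_right`, `¬ T y x ↔ T x y` as `x ≠ y`): take
the pair `(B, A)`. Otherwise fewer than `|B|/E` of the `y ∈ B` have `T y x`: the pair `(A, B)`.
-/

namespace Pool.Agent.H9.HF

open Finset Pool.Agent.H97.QD Pool.Agent.H9.BV

variable {V : Type}

open Classical in
/-- the neighbours of `x` in `B` in the direction given by `o` -/
noncomputable def prN (T : V → V → Prop) (o : Prop) (B : Finset V) (x : V) : Finset V :=
  B.filter (fun y => (o → T x y) ∧ (¬ o → T y x))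

lemma prN_sub (T : V → V → Prop) (o : Prop) (B : Finset V) (x : V) : prN T o B x ⊆ B := by
  classical
  exact Finset.filter_subset _ _

lemma pr_bad {T : V → V → Prop} (hT : IsTournament T) {E : ℕ} {A B : Finset V}
    (hAB : Disjoint A B) (o : Prop) (hbad : ∀ x ∈ A, E * (prN T o B x).card < B.card) :
    ∃ A' B' : Finset V, (A' = A ∧ B' = B ∨ A' = B ∧ B' = A) ∧
      E * miss T A' B' ≤ A'.card * B'.card := by
  classical
  by_cases ho : o
  · refine ⟨B, A, Or.inr ⟨rfl, rfl⟩, ?_⟩
    rw [miss_eq_right, Finset.mul_sum, mul_comm B.card, ← smul_eq_mul, ← Finset.sum_const]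
    apply Finset.sum_le_sum
    intro x hx
    have h1 := hbad x hx
    have h2 : (B.filter (fun y => ¬ T y x)) = prN T o B x := by
      unfold prN
      apply Finset.filter_congr
      intro y hy
      have hxy : x ≠ y := fun h => (Finset.disjoint_left.1 hAB hx) (h ▸ hy)
      constructor
      · intro h
        exact ⟨fun _ => (hT.2 x y hxy).2 h, fun h' => absurd ho h'⟩
      · rintro ⟨h, -⟩
        exact (hT.2 x y hxy).1 (h ho)
    rw [h2]
    exact h1.le
  · refine ⟨A, B, Or.inl ⟨rfl, rfl⟩, ?_⟩
    rw [miss_eq_left, Finset.mul_sum, ← smul_eq_mul (A.card), ← Finset.sum_const]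
    apply Finset.sum_le_sum
    intro x hx
    have h1 := hbad x hx
    have h2 : (B.filter (fun y => ¬ T x y)) = prN T o B x := by
      unfold prN
      apply Finset.filter_congr
      intro y hy
      have hxy : x ≠ y := fun h => (Finset.disjoint_left.1 hAB hx) (h ▸ hy)
      constructor
      · intro h
        exact ⟨fun h' => absurd h' ho, fun _ => (hT.2 y x hxy.symm).2 h⟩
      · rintro ⟨-, h⟩
        exact (hT.2 y x hxy.symm).1 (h ho)
    rw [h2]
    exact h1.le

theorem pair_lemma {T : V → V → Prop} (hT : IsTournament T) {E : ℕ} (hE : 0 < E) {h : ℕ}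
    (H : Fin h → Fin h → Prop) (hH : IsTournament H) {m : ℕ} (hm : 0 < m)
    (X : Fin h → Finset V) (hX : ∀ i, m ≤ (X i).card)
    (hdis : ∀ i j, i ≠ j → Disjoint (X i) (X j)) :
    (∃ f : Fin h → V, (∀ i, f i ∈ X i) ∧ ∀ i j, H i j → T (f i) (f j)) ∨
    ∃ A B : Finset V, (∀ a ∈ A, ∃ i, a ∈ X i) ∧ (∀ b ∈ B, ∃ i, b ∈ X i) ∧ Disjoint A B ∧
      m ≤ h * E ^ h * A.card ∧ m ≤ h * E ^ h * B.card ∧ E * miss T A B ≤ A.card * B.card := by
  classical
  induction h generalizing m with
  | zero => exact Or.inl ⟨fun i => i.elim0, fun i => i.elim0, fun i => i.elim0⟩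
  | succ h ih =>
    have hH' : IsTournament (fun i j : Fin h => H i.succ j.succ) :=
      ⟨fun a => hH.1 _, fun a b hab => hH.2 _ _ (fun h => hab (Fin.succ_injective _ h))⟩
    by_cases hgood : ∃ x ∈ X 0, ∀ j : Fin h,
        (X j.succ).card ≤ E * (prN T (H 0 j.succ) (X j.succ) x).card
    · obtain ⟨x, hx, hxg⟩ := hgood
      set m' := (m + E - 1) / E with hm'
      have hmm : m ≤ E * m' := by
        have := Nat.lt_div_mul_add (a := m + E - 1) hE
        rw [← hm', mul_comm m' E] at this
        omega
      have hm'0 : 0 < m' := by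
        rcases Nat.eq_zero_or_pos m' with h0 | h0
        · rw [h0] at hmm; omega
        · exact h0
      have hsz : ∀ j : Fin h, m' ≤ (prN T (H 0 j.succ) (X j.succ) x).card := by
        intro j
        have h1 := (hX j.succ).trans (hxg j)
        rw [hm']
        have h2 : m + E - 1 < E * ((prN T (H 0 j.succ) (X j.succ) x).card + 1) := by
          rw [mul_add, mul_one]; omega
        have h3 := (Nat.div_lt_iff_lt_mul hE).2 (by rw [mul_comm] at h2; exact h2)
        omega
      rcases ih (fun i j : Fin h => H i.succ j.succ) hH' hm'0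
        (fun j => prN T (H 0 j.succ) (X j.succ) x) hsz (fun i j hij =>
          Finset.disjoint_of_subset_left (prN_sub _ _ _ _)
            (Finset.disjoint_of_subset_right (prN_sub _ _ _ _)
              (hdis _ _ (fun h => hij (Fin.succ_injective _ h))))) with
        ⟨f, hf1, hf2⟩ | ⟨A, B, hA, hB, hAB, hcA, hcB, hmiss⟩
      · left
        refine ⟨Fin.cons x f, ?_, ?_⟩
        · intro i
          refine Fin.cases ?_ (fun j => ?_) i
          · exact hx
          · rw [Fin.cons_succ]
            exact prN_sub _ _ _ _ (hf1 j)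
        · intro i j
          refine Fin.cases ?_ (fun i => ?_) i
          · refine Fin.cases ?_ (fun j => ?_) j
            · intro h0; exact absurd h0 (hH.1 _)
            · intro h0
              rw [Fin.cons_zero, Fin.cons_succ]
              exact ((Finset.mem_filter.1 (hf1 j)).2.1) h0
          · refine Fin.cases ?_ (fun j => ?_) j
            · intro h0
              rw [Fin.cons_zero, Fin.cons_succ]
              exact ((Finset.mem_filter.1 (hf1 i)).2.2)
                ((hH.2 _ _ (Fin.succ_ne_zero i)).1 h0)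
            · intro h0
              rw [Fin.cons_succ, Fin.cons_succ]
              exact hf2 i j h0
      · right
        have hstep : ∀ c : ℕ, m' ≤ h * E ^ h * c → m ≤ (h + 1) * E ^ (h + 1) * c := by
          intro c hc
          calc m ≤ E * m' := hmm
            _ ≤ E * (h * E ^ h * c) := Nat.mul_le_mul_left _ hc
            _ = h * (E ^ (h + 1) * c) := by ring
            _ ≤ (h + 1) * (E ^ (h + 1) * c) := Nat.mul_le_mul_right _ (Nat.le_succ _)
            _ = (h + 1) * E ^ (h + 1) * c := by ring
        refine ⟨A, B, ?_, ?_, hAB, hstep _ hcA, hstep _ hcB, hmiss⟩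
        · intro a ha
          obtain ⟨i, hi⟩ := hA a ha
          exact ⟨i.succ, prN_sub _ _ _ _ hi⟩
        · intro a ha
          obtain ⟨i, hi⟩ := hB a ha
          exact ⟨i.succ, prN_sub _ _ _ _ hi⟩
    · right
      push Not at hgood
      set R : Fin h → Finset V := fun j => (X 0).filter (fun x =>
        E * (prN T (H 0 j.succ) (X j.succ) x).card < (X j.succ).card) with hR
      have hcov : X 0 ⊆ univ.biUnion R := by
        intro x hx
        obtain ⟨j, hj⟩ := hgood x hx
        exact Finset.mem_biUnion.2 ⟨j, Finset.mem_univ _, Finset.mem_filter.2 ⟨hx, hj⟩⟩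
      have h1 : (X 0).card ≤ ∑ j : Fin h, (R j).card :=
        (Finset.card_le_card hcov).trans Finset.card_biUnion_le
      obtain ⟨j, hj⟩ : ∃ j : Fin h, (X 0).card ≤ h * (R j).card := by
        by_contra hcon
        push Not at hcon
        rcases Nat.eq_zero_or_pos h with h0 | h0
        · subst h0
          rw [Finset.univ_eq_empty, Finset.sum_empty] at h1
          have := hX 0
          omega
        · have h2 : h * ∑ j : Fin h, (R j).card < h * (X 0).card := by
            rw [Finset.mul_sum]
            calc ∑ j : Fin h, h * (R j).card < ∑ _j : Fin h, (X 0).card :=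
                  Finset.sum_lt_sum_of_nonempty ⟨⟨0, h0⟩, Finset.mem_univ _⟩ (fun j _ => hcon j)
              _ = h * (X 0).card := by
                rw [Finset.sum_const, Finset.card_univ, Fintype.card_fin, smul_eq_mul]
          have h3 := Nat.mul_le_mul_left h h1
          omega
      have hAB : Disjoint (R j) (X j.succ) :=
        Finset.disjoint_of_subset_left (Finset.filter_subset _ _)
          (hdis 0 j.succ (Fin.succ_ne_zero j).symm)
      have hE1 : 1 ≤ E ^ (h + 1) := Nat.one_le_pow _ _ hE
      have hcR : m ≤ (h + 1) * E ^ (h + 1) * (R j).card := by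
        calc m ≤ (X 0).card := hX 0
          _ ≤ h * (R j).card := hj
          _ ≤ (h + 1) * E ^ (h + 1) * (R j).card := by
            apply Nat.mul_le_mul_right
            calc h ≤ (h + 1) * 1 := by omega
              _ ≤ (h + 1) * E ^ (h + 1) := Nat.mul_le_mul_left _ hE1
      have hcX : m ≤ (h + 1) * E ^ (h + 1) * (X j.succ).card := by
        calc m ≤ (X j.succ).card := hX _
          _ = 1 * (X j.succ).card := (one_mul _).symm
          _ ≤ (h + 1) * E ^ (h + 1) * (X j.succ).card := by
            apply Nat.mul_le_mul_right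
            exact Nat.one_le_iff_ne_zero.2 (Nat.mul_ne_zero (Nat.succ_ne_zero _) (by omega))
      have hRin : ∀ a ∈ R j, ∃ i, a ∈ X i := fun a ha => ⟨0, (Finset.mem_filter.1 ha).1⟩
      have hXin : ∀ a ∈ X j.succ, ∃ i, a ∈ X i := fun a ha => ⟨j.succ, ha⟩
      obtain ⟨A', B', hor, hmiss⟩ := pr_bad hT (E := E) hAB (H 0 j.succ)
        (fun x hx => (Finset.mem_filter.1 hx).2)
      rcases hor with ⟨rfl, rfl⟩ | ⟨rfl, rfl⟩
      · exact ⟨_, _, hRin, hXin, hAB, hcR, hcX, hmiss⟩
      · exact ⟨_, _, hXin, hRin, hAB.symm, hcX, hcR, hmiss⟩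

end Pool.Agent.H9.HF
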