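import Pool.Agent.H9.HF.Pair
import Pool.Agent.H9.BV.Chain

/-!
# JOB HF-2: a nearly complete pair of given size in every large set

`shrink`: `min_subset` (BV/Chain) for `Y = A` and `c a = #{b ∈ B : ¬ T a b}` (`miss_eq_left`) gives
`A' ⊆ A`, `|A'| = w`, `|A| miss T A' B ≤ w miss T A B`, so `E miss T A' B ≤ w |B|` (if `A` is empty then
`w = 0`, trivial); then `min_subset` for `Y = B`, `c b = #{a ∈ A' : ¬ T a b}` (`miss_eq_right`).
`pair_in`: `m = h E^h w`; `h m ≤ |X|`, so `X` contains `h` disjoint sets of size `m`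
(`0 < h`: otherwise the empty map is a copy of `H`, contradicting `hno`; if `w = 0` take empty sets).
`pair_lemma`: the first case contradicts `hno` (`f` is injective since the sets are disjoint). In the
second case `h E^h w = m ≤ h E^h |A|` gives `w ≤ |A|`, also `w ≤ |B|`; `shrink`.
-/

namespace Pool.Agent.H9.HF

open Finset Pool.Agent.H97.QD Pool.Agent.H9.BV

variable {V : Type}

theorem shrink {T : V → V → Prop} {E w : ℕ} {A B : Finset V} (hA : w ≤ A.card)
    (hB : w ≤ B.card) (h : E * miss T A B ≤ A.card * B.card) :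
    ∃ A' ⊆ A, ∃ B' ⊆ B, A'.card = w ∧ B'.card = w ∧ E * miss T A' B' ≤ w * w := by
  classical
  rcases Nat.eq_zero_or_pos w with hw | hw
  · subst hw
    refine ⟨∅, Finset.empty_subset _, ∅, Finset.empty_subset _, rfl, rfl, ?_⟩
    have : miss T (∅ : Finset V) ∅ = 0 := by unfold miss; simp
    simp [this]
  have hA0 : (0 : ℝ) < A.card := by exact_mod_cast lt_of_lt_of_le hw hA
  have hB0 : (0 : ℝ) < B.card := by exact_mod_cast lt_of_lt_of_le hw hB
  have hR : (E : ℝ) * (miss T A B : ℝ) ≤ A.card * B.card := by exact_mod_cast h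
  obtain ⟨A', hA', hcA, hmA⟩ := min_subset A
    (fun a => ((B.filter (fun b => ¬ T a b)).card : ℝ)) hA
  have e1 : ∑ v ∈ A', ((B.filter (fun b => ¬ T v b)).card : ℝ) = (miss T A' B : ℝ) := by
    rw [miss_eq_left]; push_cast; rfl
  have e2 : ∑ v ∈ A, ((B.filter (fun b => ¬ T v b)).card : ℝ) = (miss T A B : ℝ) := by
    rw [miss_eq_left]; push_cast; rfl
  rw [e1, e2] at hmA
  have h1 : (E : ℝ) * (miss T A' B : ℝ) ≤ w * B.card := by
    have h2 : (A.card : ℝ) * ((E : ℝ) * (miss T A' B : ℝ)) ≤ A.card * (w * B.card) := by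
      calc (A.card : ℝ) * ((E : ℝ) * (miss T A' B : ℝ)) =
            E * (A.card * (miss T A' B : ℝ)) := by ring
        _ ≤ E * (w * (miss T A B : ℝ)) := mul_le_mul_of_nonneg_left hmA (Nat.cast_nonneg _)
        _ = w * (E * (miss T A B : ℝ)) := by ring
        _ ≤ w * (A.card * B.card) := mul_le_mul_of_nonneg_left hR (Nat.cast_nonneg _)
        _ = A.card * (w * B.card) := by ring
    exact le_of_mul_le_mul_left h2 hA0
  obtain ⟨B', hB', hcB, hmB⟩ := min_subset B
    (fun b => ((A'.filter (fun a => ¬ T a b)).card : ℝ)) hB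
  have e3 : ∑ v ∈ B', ((A'.filter (fun a => ¬ T a v)).card : ℝ) = (miss T A' B' : ℝ) := by
    rw [miss_eq_right]; push_cast; rfl
  have e4 : ∑ v ∈ B, ((A'.filter (fun a => ¬ T a v)).card : ℝ) = (miss T A' B : ℝ) := by
    rw [miss_eq_right]; push_cast; rfl
  rw [e3, e4] at hmB
  refine ⟨A', hA', B', hB', hcA, hcB, ?_⟩
  have h3 : (E : ℝ) * (miss T A' B' : ℝ) ≤ w * w := by
    have h4 : (B.card : ℝ) * ((E : ℝ) * (miss T A' B' : ℝ)) ≤ B.card * (w * w) := by
      calc (B.card : ℝ) * ((E : ℝ) * (miss T A' B' : ℝ)) =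
            E * (B.card * (miss T A' B' : ℝ)) := by ring
        _ ≤ E * (w * (miss T A' B : ℝ)) := mul_le_mul_of_nonneg_left hmB (Nat.cast_nonneg _)
        _ = w * (E * (miss T A' B : ℝ)) := by ring
        _ ≤ w * (w * B.card) := mul_le_mul_of_nonneg_left h1 (Nat.cast_nonneg _)
        _ = B.card * (w * w) := by ring
    exact le_of_mul_le_mul_left h4 hB0
  exact_mod_cast h3

lemma pi_family (m : ℕ) (X : Finset V) (h : ℕ) (hX : h * m ≤ X.card) :
    ∃ F : ℕ → Finset V, (∀ i < h, F i ⊆ X ∧ (F i).card = m) ∧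
      ∀ i < h, ∀ j < h, i ≠ j → Disjoint (F i) (F j) := by
  classical
  induction h with
  | zero => exact ⟨fun _ => ∅, fun i hi => absurd hi (Nat.not_lt_zero _),
      fun i hi => absurd hi (Nat.not_lt_zero _)⟩
  | succ h ih =>
    have h1 : h * m ≤ X.card := le_trans (Nat.mul_le_mul_right _ (Nat.le_succ _)) hX
    obtain ⟨F, hF1, hF2⟩ := ih h1
    have h2 : ((range h).biUnion F).card ≤ h * m := by
      refine Finset.card_biUnion_le.trans ?_
      calc ∑ i ∈ range h, (F i).card = ∑ _i ∈ range h, m :=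
            Finset.sum_congr rfl (fun i hi => (hF1 i (Finset.mem_range.1 hi)).2)
        _ = h * m := by rw [Finset.sum_const, Finset.card_range, smul_eq_mul]
        _ ≤ h * m := le_rfl
    have h3 : m ≤ (X \ (range h).biUnion F).card := by
      have h4 := Finset.le_card_sdiff ((range h).biUnion F) X
      have h5 : (h + 1) * m = h * m + m := by ring
      omega
    obtain ⟨G, hG1, hG2⟩ := Finset.exists_subset_card_eq h3
    have hGd : ∀ i < h, Disjoint (F i) G := by
      intro i hi
      refine Finset.disjoint_left.2 (fun a ha haG => ?_)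
      exact (Finset.mem_sdiff.1 (hG1 haG)).2
        (Finset.mem_biUnion.2 ⟨i, Finset.mem_range.2 hi, ha⟩)
    refine ⟨fun i => if i = h then G else F i, ?_, ?_⟩
    · intro i hi
      by_cases he : i = h
      · simp only [if_pos he]
        exact ⟨hG1.trans Finset.sdiff_subset, hG2⟩
      · simp only [if_neg he]
        exact hF1 i (by omega)
    · intro i hi j hj hij
      by_cases he : i = h
      · have hj' : j ≠ h := fun h' => hij (he.trans h'.symm)
        simp only [if_pos he, if_neg hj']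
        exact (hGd j (by omega)).symm
      · by_cases he' : j = h
        · simp only [if_neg he, if_pos he']
          exact hGd i (by omega)
        · simp only [if_neg he, if_neg he']
          exact hF2 i (by omega) j (by omega) hij

theorem pair_in {T : V → V → Prop} (hT : IsTournament T) {E : ℕ} (hE : 0 < E) {h : ℕ}
    (H : Fin h → Fin h → Prop) (hH : IsTournament H)
    (hno : ¬ ∃ f : Fin h → V, Function.Injective f ∧ ∀ i j, H i j → T (f i) (f j))
    {X : Finset V} {w : ℕ} (hX : h ^ 2 * E ^ h * w ≤ X.card) :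
    ∃ A ⊆ X, ∃ B ⊆ X, Disjoint A B ∧ A.card = w ∧ B.card = w ∧ E * miss T A B ≤ w * w := by
  classical
  rcases Nat.eq_zero_or_pos w with hw | hw
  · subst hw
    refine ⟨∅, Finset.empty_subset _, ∅, Finset.empty_subset _, Finset.disjoint_empty_left _,
      rfl, rfl, ?_⟩
    have : miss T (∅ : Finset V) ∅ = 0 := by unfold miss; simp
    simp [this]
  have hh : 0 < h := by
    rcases Nat.eq_zero_or_pos h with h0 | h0
    · subst h0
      exact absurd ⟨fun i => i.elim0, fun i => i.elim0, fun i => i.elim0⟩ hno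
    · exact h0
  set m := h * E ^ h * w with hm
  have hm0 : 0 < m := by positivity
  have hhm : h * m ≤ X.card := by
    have : h * m = h ^ 2 * E ^ h * w := by rw [hm]; ring
    rw [this]; exact hX
  obtain ⟨F, hF1, hF2⟩ := pi_family m X h hhm
  have hc : 0 < h * E ^ h := by positivity
  rcases pair_lemma hT hE H hH hm0 (fun i => F i) (fun i => (hF1 i i.2).2.ge)
    (fun i j hij => hF2 i i.2 j j.2 (fun h' => hij (Fin.ext h'))) with
    ⟨f, hf1, hf2⟩ | ⟨A, B, hA, hB, hAB, hcA, hcB, hmiss⟩
  · exfalso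
    refine hno ⟨f, ?_, hf2⟩
    intro i j hij
    by_contra hne
    have h1 := hf1 i
    rw [hij] at h1
    exact Finset.disjoint_left.1 (hF2 i i.2 j j.2 (fun h' => hne (Fin.ext h'))) h1 (hf1 j)
  · have hwA : w ≤ A.card := Nat.le_of_mul_le_mul_left hcA hc
    have hwB : w ≤ B.card := Nat.le_of_mul_le_mul_left hcB hc
    obtain ⟨A', hA', B', hB', h1, h2, h3⟩ := shrink hwA hwB hmiss
    have hAX : A ⊆ X := fun a ha => by
      obtain ⟨i, hi⟩ := hA a ha
      exact (hF1 i i.2).1 hi
    have hBX : B ⊆ X := fun a ha => by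
      obtain ⟨i, hi⟩ := hB a ha
      exact (hF1 i i.2).1 hi
    exact ⟨A', hA'.trans hAX, B', hB'.trans hBX, Finset.disjoint_of_subset_left hA'
      (Finset.disjoint_of_subset_right hB' hAB), h1, h2, h3⟩

end Pool.Agent.H9.HF
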