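import Pool.Agent.H9.HF.PairIn

/-!
# JOB HF-3: many sets of equal size, each pair nearly complete

`Str T E s w X Y`: the sets `Y 0, .., Y (2^s - 1)` are disjoint subsets of `X` of size `w`, and
`E miss T (Y i) (Y j) ≤ 4^s w^2` for `i < j`.
`tile`: induction on `|A|`: if `|A| < M w` take `n = 0`; else take a structure `Y` in `A` and continue in
`A` minus the union of the `Y i` (the statement `hstr` is for all subsets of `A`; `0 < w` makes the union
nonempty, `2^s ≥ 1`).
`exists_str`: induction on `s`. `s = 0`: a subset of size `w`. `s + 1`: `M = (2 R)^s`,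
`R = h^2 E^h`, `W = 2 M w`; `pair_in` gives disjoint `A, B ⊆ X` of size `W` with `E miss T A B ≤ W^2`.
`tile` for `A` and for `B`: `n`, `n'` structures `Z a`, `Z' b` with `2M w = W ≤ n 2^s w + M w`, so
`W ≤ 2 n 2^s w`, also `W ≤ 2 n' 2^s w`. With `U a = ⋃_{i < 2^s} Z a i`, `U' b` similarly, these are disjoint
subsets of `A` resp. `B`, so `∑_{a,b} miss T (U a) (U' b) ≤ miss T A B`, hence some pair has
`n n' miss T (U a) (U' b) ≤ miss T A B`, so
`W^2 E miss T (U a) (U' b) ≤ 4 (2^s w)^2 n n' E miss T (U a) (U' b) ≤ 4 (2^s w)^2 W^2`, that is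
`E miss T (U a) (U' b) ≤ 4^(s+1) w^2`. The sets `Z a 0, .., Z a (2^s-1), Z' b 0, .., Z' b (2^s-1)` are the new
structure (`miss_mono`; `4^s ≤ 4^(s+1)`).
-/

namespace Pool.Agent.H9.HF

open Finset Pool.Agent.H97.QD Pool.Agent.H9.BV

variable {V : Type}

/-- a structure of `2^s` sets -/
structure Str (T : V → V → Prop) (E s w : ℕ) (X : Finset V) (Y : ℕ → Finset V) : Prop where
  sub : ∀ i < 2 ^ s, Y i ⊆ X
  card : ∀ i < 2 ^ s, (Y i).card = w
  disj : ∀ i < 2 ^ s, ∀ j < 2 ^ s, i ≠ j → Disjoint (Y i) (Y j)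
  miss : ∀ i j, i < j → j < 2 ^ s → E * miss T (Y i) (Y j) ≤ 4 ^ s * w ^ 2

lemma Str.mono {T : V → V → Prop} {E s w : ℕ} {X X' : Finset V} {Y : ℕ → Finset V}
    (h : Str T E s w X Y) (hX : X ⊆ X') : Str T E s w X' Y :=
  ⟨fun i hi => (h.sub i hi).trans hX, h.card, h.disj, h.miss⟩

open Classical in
/-- the union of the sets of a structure -/
noncomputable def stU (s : ℕ) (Y : ℕ → Finset V) : Finset V := (range (2 ^ s)).biUnion Y

lemma mem_stU {s : ℕ} {Y : ℕ → Finset V} {a : V} : a ∈ stU s Y ↔ ∃ i < 2 ^ s, a ∈ Y i := by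
  classical
  simp [stU]

lemma stU_sub {T : V → V → Prop} {E s w : ℕ} {X : Finset V} {Y : ℕ → Finset V}
    (h : Str T E s w X Y) : stU s Y ⊆ X := by
  intro a ha
  obtain ⟨i, hi, hai⟩ := mem_stU.1 ha
  exact h.sub i hi hai

lemma stU_card {T : V → V → Prop} {E s w : ℕ} {X : Finset V} {Y : ℕ → Finset V}
    (h : Str T E s w X Y) : (stU s Y).card = 2 ^ s * w := by
  classical
  unfold stU
  rw [Finset.card_biUnion (fun i hi j hj hij =>
    h.disj i (Finset.mem_range.1 hi) j (Finset.mem_range.1 hj) hij)]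
  rw [Finset.sum_congr rfl (fun i hi => h.card i (Finset.mem_range.1 hi)), Finset.sum_const,
    Finset.card_range, smul_eq_mul]

theorem tile {T : V → V → Prop} {E s w M : ℕ} (hw : 0 < w) (A : Finset V)
    (hstr : ∀ X ⊆ A, M * w ≤ X.card → ∃ Y, Str T E s w X Y) :
    ∃ (n : ℕ) (Z : ℕ → ℕ → Finset V), (∀ a < n, Str T E s w A (Z a)) ∧
      (∀ a < n, ∀ b < n, a ≠ b → ∀ i < 2 ^ s, ∀ j < 2 ^ s, Disjoint (Z a i) (Z b j)) ∧
      A.card ≤ n * (2 ^ s * w) + M * w := by
  classical
  induction hN : A.card using Nat.strong_induction_on generalizing A with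
  | _ N ih =>
    subst hN
    rcases Nat.lt_or_ge A.card (M * w) with hlt | hge
    · exact ⟨0, fun _ _ => ∅, fun a ha => absurd ha (Nat.not_lt_zero _),
        fun a ha => absurd ha (Nat.not_lt_zero _), by omega⟩
    · obtain ⟨Y, hY⟩ := hstr A (Finset.Subset.refl _) hge
      have hU := stU_sub hY
      have hUc := stU_card hY
      have hpos : 0 < 2 ^ s * w := by positivity
      have hsd : (A \ stU s Y).card = A.card - (stU s Y).card := Finset.card_sdiff_of_subset hU
      have hle : (stU s Y).card ≤ A.card := Finset.card_le_card hU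
      obtain ⟨n, Z, h1, h2, h3⟩ := ih (A \ stU s Y).card (by omega) (A \ stU s Y)
        (fun X hX hc => hstr X (hX.trans Finset.sdiff_subset) hc) rfl
      have hYZ : ∀ b < n, ∀ i < 2 ^ s, ∀ j < 2 ^ s, Disjoint (Y i) (Z b j) := by
        intro b hb i hi j hj
        refine Finset.disjoint_left.2 (fun a ha haZ => ?_)
        exact (Finset.mem_sdiff.1 ((h1 b hb).sub j hj haZ)).2 (mem_stU.2 ⟨i, hi, ha⟩)
      refine ⟨n + 1, fun a => if a = n then Y else Z a, ?_, ?_, ?_⟩
      · intro a ha
        by_cases he : a = n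
        · simp only [if_pos he]; exact hY
        · simp only [if_neg he]
          exact (h1 a (by omega)).mono Finset.sdiff_subset
      · intro a ha b hb hab i hi j hj
        by_cases he : a = n
        · have hb' : b ≠ n := fun h' => hab (he.trans h'.symm)
          simp only [if_pos he, if_neg hb']
          exact hYZ b (by omega) i hi j hj
        · by_cases he' : b = n
          · simp only [if_neg he, if_pos he']
            exact (hYZ a (by omega) j hj i hi).symm
          · simp only [if_neg he, if_neg he']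
            exact h2 a (by omega) b (by omega) hab i hi j hj
      · rw [add_mul, one_mul]
        omega

lemma st_sum {T : V → V → Prop} {A B : Finset V} {n n' : ℕ} {U U' : ℕ → Finset V}
    (hU : ∀ a < n, U a ⊆ A) (hU' : ∀ a < n', U' a ⊆ B)
    (hd : ∀ a < n, ∀ b < n, a ≠ b → Disjoint (U a) (U b))
    (hd' : ∀ a < n', ∀ b < n', a ≠ b → Disjoint (U' a) (U' b)) :
    ∑ p ∈ range n ×ˢ range n', miss T (U p.1) (U' p.2) ≤ miss T A B := by
  classical
  unfold miss
  rw [← Finset.card_biUnion]
  · apply Finset.card_le_card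
    intro x hx
    obtain ⟨p, hp, hx⟩ := Finset.mem_biUnion.1 hx
    obtain ⟨hp1, hp2⟩ := Finset.mem_product.1 hp
    obtain ⟨hx1, hx2⟩ := Finset.mem_filter.1 hx
    obtain ⟨hx3, hx4⟩ := Finset.mem_product.1 hx1
    exact Finset.mem_filter.2 ⟨Finset.mem_product.2 ⟨hU _ (Finset.mem_range.1 hp1) hx3,
      hU' _ (Finset.mem_range.1 hp2) hx4⟩, hx2⟩
  · intro p hp p' hp' hne
    obtain ⟨hp1, hp2⟩ := Finset.mem_product.1 hp
    obtain ⟨hp1', hp2'⟩ := Finset.mem_product.1 hp'
    refine Finset.disjoint_left.2 (fun x hx hx' => ?_)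
    obtain ⟨hx3, hx4⟩ := Finset.mem_product.1 (Finset.mem_filter.1 hx).1
    obtain ⟨hx3', hx4'⟩ := Finset.mem_product.1 (Finset.mem_filter.1 hx').1
    apply hne
    apply Prod.ext
    · by_contra h
      exact Finset.disjoint_left.1 (hd _ (Finset.mem_range.1 hp1) _ (Finset.mem_range.1 hp1') h)
        hx3 hx3'
    · by_contra h
      exact Finset.disjoint_left.1 (hd' _ (Finset.mem_range.1 hp2) _ (Finset.mem_range.1 hp2') h)
        hx4 hx4'

theorem exists_str {T : V → V → Prop} (hT : IsTournament T) {E : ℕ} (hE : 0 < E) {h : ℕ}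
    (H : Fin h → Fin h → Prop) (hH : IsTournament H)
    (hno : ¬ ∃ f : Fin h → V, Function.Injective f ∧ ∀ i j, H i j → T (f i) (f j))
    (s : ℕ) {X : Finset V} {w : ℕ} (hw : 0 < w) (hX : (2 * (h ^ 2 * E ^ h)) ^ s * w ≤ X.card) :
    ∃ Y, Str T E s w X Y := by
  classical
  have hh : 0 < h := by
    rcases Nat.eq_zero_or_pos h with h0 | h0
    · subst h0
      exact absurd ⟨fun i => i.elim0, fun i => i.elim0, fun i => i.elim0⟩ hno
    · exact h0
  induction s generalizing X with
  | zero =>
    rw [pow_zero, one_mul] at hX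
    obtain ⟨Y, hY1, hY2⟩ := Finset.exists_subset_card_eq hX
    refine ⟨fun _ => Y, ⟨fun _ _ => hY1, fun _ _ => hY2, ?_, ?_⟩⟩
    · intro i hi j hj hij
      rw [pow_zero] at hi hj
      omega
    · intro i j hij hj
      rw [pow_zero] at hj
      omega
  | succ s ih =>
    set M := (2 * (h ^ 2 * E ^ h)) ^ s with hM
    have hM0 : 0 < M := by positivity
    set W := 2 * M * w with hW
    have hW0 : 0 < W := by positivity
    obtain ⟨A, hA, B, hB, hAB, hcA, hcB, hmiss⟩ := pair_in hT hE H hH hno (X := X) (w := W) (by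
      have : h ^ 2 * E ^ h * W = (2 * (h ^ 2 * E ^ h)) ^ (s + 1) * w := by
        rw [pow_succ (2 * (h ^ 2 * E ^ h)) s, ← hM, hW]; ring
      rw [this]; exact hX)
    obtain ⟨n, Z, hZ1, hZ2, hZ3⟩ := tile (T := T) (E := E) (s := s) (M := M) hw A
      (fun X' _ hc => ih hc)
    obtain ⟨n', Z', hZ1', hZ2', hZ3'⟩ := tile (T := T) (E := E) (s := s) (M := M) hw B
      (fun X' _ hc => ih hc)
    rw [hcA] at hZ3
    rw [hcB] at hZ3'
    have hn : W ≤ 2 * (n * (2 ^ s * w)) := by
      have : W = M * w + M * w := by rw [hW]; ring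
      omega
    have hn' : W ≤ 2 * (n' * (2 ^ s * w)) := by
      have : W = M * w + M * w := by rw [hW]; ring
      omega
    have hUd : ∀ a < n, ∀ b < n, a ≠ b → Disjoint (stU s (Z a)) (stU s (Z b)) := by
      intro a ha b hb hab
      refine Finset.disjoint_left.2 (fun x hx hx' => ?_)
      obtain ⟨i, hi, hxi⟩ := mem_stU.1 hx
      obtain ⟨j, hj, hxj⟩ := mem_stU.1 hx'
      exact Finset.disjoint_left.1 (hZ2 a ha b hb hab i hi j hj) hxi hxj
    have hUd' : ∀ a < n', ∀ b < n', a ≠ b → Disjoint (stU s (Z' a)) (stU s (Z' b)) := by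
      intro a ha b hb hab
      refine Finset.disjoint_left.2 (fun x hx hx' => ?_)
      obtain ⟨i, hi, hxi⟩ := mem_stU.1 hx
      obtain ⟨j, hj, hxj⟩ := mem_stU.1 hx'
      exact Finset.disjoint_left.1 (hZ2' a ha b hb hab i hi j hj) hxi hxj
    have hsum := st_sum (T := T) (U := fun a => stU s (Z a)) (U' := fun a => stU s (Z' a))
      (fun a ha => stU_sub (hZ1 a ha)) (fun a ha => stU_sub (hZ1' a ha)) hUd hUd'
    obtain ⟨a, b, ha, hb, hab⟩ : ∃ a b, a < n ∧ b < n' ∧
        n * n' * miss T (stU s (Z a)) (stU s (Z' b)) ≤ miss T A B := by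
      by_contra hcon
      push Not at hcon
      have hn0 : 0 < n := by
        rcases Nat.eq_zero_or_pos n with h0 | h0
        · rw [h0] at hn; omega
        · exact h0
      have hn0' : 0 < n' := by
        rcases Nat.eq_zero_or_pos n' with h0 | h0
        · rw [h0] at hn'; omega
        · exact h0
      have h1 : ∑ _p ∈ range n ×ˢ range n', miss T A B <
          ∑ p ∈ range n ×ˢ range n', n * n' * miss T (stU s (Z p.1)) (stU s (Z' p.2)) := by
        apply Finset.sum_lt_sum_of_nonempty
        · exact ⟨(0, 0), Finset.mem_product.2 ⟨Finset.mem_range.2 hn0, Finset.mem_range.2 hn0'⟩⟩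
        · intro p hp
          obtain ⟨hp1, hp2⟩ := Finset.mem_product.1 hp
          exact hcon p.1 p.2 (Finset.mem_range.1 hp1) (Finset.mem_range.1 hp2)
      rw [Finset.sum_const, Finset.card_product, Finset.card_range, Finset.card_range,
        smul_eq_mul, ← Finset.mul_sum] at h1
      exact absurd (Nat.mul_le_mul_left (n * n') hsum) (not_le.2 h1)
    have hn0 : 0 < n := by omega
    have hn0' : 0 < n' := by omega
    have hkey : E * miss T (stU s (Z a)) (stU s (Z' b)) ≤ 4 ^ (s + 1) * w ^ 2 := by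
      have h1 : (n * n') * (E * miss T (stU s (Z a)) (stU s (Z' b))) ≤
          (n * n') * (4 ^ (s + 1) * w ^ 2) := by
        calc (n * n') * (E * miss T (stU s (Z a)) (stU s (Z' b))) =
            E * (n * n' * miss T (stU s (Z a)) (stU s (Z' b))) := by ring
          _ ≤ E * miss T A B := Nat.mul_le_mul_left _ hab
          _ ≤ W * W := hmiss
          _ ≤ (2 * (n * (2 ^ s * w))) * (2 * (n' * (2 ^ s * w))) := Nat.mul_le_mul hn hn'
          _ = (n * n') * (4 * (2 ^ s) ^ 2 * w ^ 2) := by ring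
          _ = (n * n') * (4 ^ (s + 1) * w ^ 2) := by
            have h4 : 4 * (2 ^ s) ^ 2 = 4 ^ (s + 1) := by
              rw [← pow_mul, mul_comm s 2, pow_mul, pow_succ 4 s, mul_comm]; norm_num
            rw [h4]
      exact Nat.le_of_mul_le_mul_left h1 (Nat.mul_pos hn0 hn0')
    have h44 : 4 ^ s * w ^ 2 ≤ 4 ^ (s + 1) * w ^ 2 :=
      Nat.mul_le_mul_right _ (Nat.pow_le_pow_right (by norm_num) (Nat.le_succ s))
    have h2s : 2 ^ (s + 1) = 2 ^ s + 2 ^ s := by rw [pow_succ]; ring
    have hZA := hZ1 a ha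
    have hZB := hZ1' b hb
    refine ⟨fun i => if i < 2 ^ s then Z a i else Z' b (i - 2 ^ s), ⟨?_, ?_, ?_, ?_⟩⟩
    · intro i hi
      by_cases h1 : i < 2 ^ s
      · simp only [if_pos h1]; exact (hZA.sub i h1).trans hA
      · simp only [if_neg h1]; exact (hZB.sub _ (by omega)).trans hB
    · intro i hi
      by_cases h1 : i < 2 ^ s
      · simp only [if_pos h1]; exact hZA.card i h1
      · simp only [if_neg h1]; exact hZB.card _ (by omega)
    · intro i hi j hj hij
      by_cases h1 : i < 2 ^ s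
      · by_cases h2 : j < 2 ^ s
        · simp only [if_pos h1, if_pos h2]; exact hZA.disj i h1 j h2 hij
        · simp only [if_pos h1, if_neg h2]
          exact Finset.disjoint_of_subset_left (hZA.sub i h1)
            (Finset.disjoint_of_subset_right (hZB.sub _ (by omega)) hAB)
      · by_cases h2 : j < 2 ^ s
        · simp only [if_neg h1, if_pos h2]
          exact (Finset.disjoint_of_subset_left (hZA.sub j h2)
            (Finset.disjoint_of_subset_right (hZB.sub _ (by omega)) hAB)).symm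
        · simp only [if_neg h1, if_neg h2]
          exact hZB.disj _ (by omega) _ (by omega) (by omega)
    · intro i j hij hj
      by_cases h1 : i < 2 ^ s
      · by_cases h2 : j < 2 ^ s
        · simp only [if_pos h1, if_pos h2]
          exact (hZA.miss i j hij h2).trans h44
        · simp only [if_pos h1, if_neg h2]
          refine le_trans (Nat.mul_le_mul_left _ (miss_mono T ?_ ?_)) hkey
          · exact fun x hx => mem_stU.2 ⟨i, h1, hx⟩
          · exact fun x hx => mem_stU.2 ⟨j - 2 ^ s, by omega, hx⟩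
      · have h2 : ¬ j < 2 ^ s := by omega
        simp only [if_neg h1, if_neg h2]
        exact (hZB.miss _ _ (by omega) (by omega)).trans h44

end Pool.Agent.H9.HF
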